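import Pool.Agent.ARC.StmtsU
import Pool.Agent.Helper82_ZES.GAU

/-!
Row GAV of squad ARC: the gauge with its metric. The first part of the proof is
`Pool.Agent.ZES.H82.gau`.
-/

set_option autoImplicit false

namespace Pool.Agent.ARC.H17

open scoped BigOperators InnerProductSpace
open Pool.Agent.THS Pool.Agent.ZES Pool.Agent.ZES.H82

/-- The real bilinear form of the inverse of `Im tau`. -/
noncomputable def rb {g : ℕ} (τ : Matrix (Fin g) (Fin g) ℂ) (a b : Fin g → ℝ) : ℝ :=
  ∑ i, ∑ j, a i * (τ.map Complex.im)⁻¹ i j * b j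

theorem rb_Yv {g : ℕ} (τ : Matrix (Fin g) (Fin g) ℂ) (hτ : Siegel τ) (a y : Fin g → ℝ) :
    rb τ a (Yv τ y) = ∑ i, a i * y i := by
  have hu : IsUnit (τ.map Complex.im).det := (Matrix.isUnit_iff_isUnit_det _).1 hτ.2.isUnit
  have h : ((τ.map Complex.im)⁻¹).mulVec ((τ.map Complex.im).mulVec y) = y := by
    rw [Matrix.mulVec_mulVec, Matrix.nonsing_inv_mul _ hu, Matrix.one_mulVec]
  unfold rb
  refine Finset.sum_congr rfl fun i _ => ?_
  have h2 := congrFun h i
  have h3 : (∑ j, (τ.map Complex.im)⁻¹ i j * Yv τ y j) = y i := h2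
  rw [← h3, Finset.mul_sum]
  refine Finset.sum_congr rfl fun j _ => ?_
  ring

theorem rb_symm {g : ℕ} (τ : Matrix (Fin g) (Fin g) ℂ) (hτ : Siegel τ) (a b : Fin g → ℝ) :
    rb τ a b = rb τ b a := by
  have ht : (τ.map Complex.im).transpose = τ.map Complex.im := by
    rw [← Matrix.transpose_map, hτ.1]
  have hi : ∀ i j, (τ.map Complex.im)⁻¹ i j = (τ.map Complex.im)⁻¹ j i := by
    intro i j
    have h := Matrix.transpose_nonsing_inv (τ.map Complex.im)
    rw [ht] at h
    have h2 := congrFun (congrFun h j) i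
    rw [Matrix.transpose_apply] at h2
    exact h2
  unfold rb
  rw [Finset.sum_comm]
  refine Finset.sum_congr rfl fun i _ => Finset.sum_congr rfl fun j _ => ?_
  rw [hi j i]
  ring

theorem hy_re {g : ℕ} (τ : Matrix (Fin g) (Fin g) ℂ) (u w : Fin g → ℂ) :
    (HY τ u w).re = rb τ (fun i => (u i).re) (fun i => (w i).re)
      + rb τ (fun i => (u i).im) (fun i => (w i).im) := by
  unfold HY rb
  rw [Complex.re_sum, ← Finset.sum_add_distrib]
  refine Finset.sum_congr rfl fun i _ => ?_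
  rw [Complex.re_sum, ← Finset.sum_add_distrib]
  refine Finset.sum_congr rfl fun j _ => ?_
  simp only [Complex.mul_re, Complex.mul_im, Complex.conj_re, Complex.conj_im,
    Complex.ofReal_re, Complex.ofReal_im]
  ring

theorem hy_im {g : ℕ} (τ : Matrix (Fin g) (Fin g) ℂ) (u w : Fin g → ℂ) :
    (HY τ u w).im = rb τ (fun i => (u i).re) (fun i => (w i).im)
      - rb τ (fun i => (u i).im) (fun i => (w i).re) := by
  unfold HY rb
  rw [Complex.im_sum, ← Finset.sum_sub_distrib]
  refine Finset.sum_congr rfl fun i _ => ?_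
  rw [Complex.im_sum, ← Finset.sum_sub_distrib]
  refine Finset.sum_congr rfl fun j _ => ?_
  simp only [Complex.mul_re, Complex.mul_im, Complex.conj_re, Complex.conj_im,
    Complex.ofReal_re, Complex.ofReal_im]
  ring

theorem bl_re {g : ℕ} (τ : Matrix (Fin g) (Fin g) ℂ) (x : Fin g → ℂ) :
    (∑ i, ∑ j, x i * (((τ.map Complex.im)⁻¹ i j : ℝ) : ℂ) * x j).re
      = rb τ (fun i => (x i).re) (fun i => (x i).re)
        - rb τ (fun i => (x i).im) (fun i => (x i).im) := by
  unfold rb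
  rw [Complex.re_sum, ← Finset.sum_sub_distrib]
  refine Finset.sum_congr rfl fun i _ => ?_
  rw [Complex.re_sum, ← Finset.sum_sub_distrib]
  refine Finset.sum_congr rfl fun j _ => ?_
  simp only [Complex.mul_re, Complex.mul_im, Complex.ofReal_re, Complex.ofReal_im]
  ring

theorem hy_pair {g : ℕ} (τ : Matrix (Fin g) (Fin g) ℂ) (hτ : Siegel τ)
    (P Q : Fin g → ℤ) (x y : Fin g → ℝ) :
    (HY τ (pr τ P Q) (fun i => (x i : ℂ) + ∑ j, τ i j * (y j : ℂ))).im = sy P Q x y := by
  have e1 : (fun i => (pr τ P Q i).re) = fun i => (P i : ℝ) + ∑ j, (τ i j).re * (Q j : ℝ) := by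
    funext i
    simp only [pr, Complex.add_re, Complex.intCast_re, Complex.re_sum, Complex.mul_re,
      Complex.intCast_im, mul_zero, sub_zero]
  have e2 : (fun i => (pr τ P Q i).im) = Yv τ (fun j => (Q j : ℝ)) := by
    funext i
    simp only [pr, Yv, Complex.add_im, Complex.intCast_im, Complex.im_sum, Complex.mul_im,
      Complex.intCast_re, mul_zero, zero_add]
  have e3 : (fun i => ((fun i => (x i : ℂ) + ∑ j, τ i j * (y j : ℂ)) i).re)
      = fun i => x i + ∑ j, (τ i j).re * y j := by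
    funext i
    simp only [Complex.add_re, Complex.ofReal_re, Complex.re_sum, Complex.mul_re,
      Complex.ofReal_im, mul_zero, sub_zero]
  have e4 : (fun i => ((fun i => (x i : ℂ) + ∑ j, τ i j * (y j : ℂ)) i).im) = Yv τ y := by
    funext i
    simp only [Yv, Complex.add_im, Complex.ofReal_im, Complex.im_sum, Complex.mul_im,
      Complex.ofReal_re, mul_zero, zero_add]
  rw [hy_im, e1, e2, e3, e4, rb_Yv τ hτ, rb_symm τ hτ, rb_Yv τ hτ]
  have hs : ∀ i j, τ i j = τ j i := by
    intro i j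
    have h := congrFun (congrFun hτ.1 j) i
    rw [Matrix.transpose_apply] at h
    exact h
  have e5 : (∑ i, (∑ j, (τ i j).re * (Q j : ℝ)) * y i)
      = ∑ i, (∑ j, (τ i j).re * y j) * (Q i : ℝ) := by
    simp only [Finset.sum_mul]
    rw [Finset.sum_comm]
    refine Finset.sum_congr rfl fun i _ => Finset.sum_congr rfl fun j _ => ?_
    rw [hs j i]
    ring
  unfold sy
  simp only [add_mul, Finset.sum_add_distrib, Finset.sum_sub_distrib]
  rw [e5]
  have e6 : (∑ i, x i * (Q i : ℝ)) = ∑ i, (Q i : ℝ) * x i :=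
    Finset.sum_congr rfl fun i _ => mul_comm _ _
  rw [e6]
  ring

theorem gav (h1 : ZES.QmxStmt) (h2 : ZES.PqiStmt) (h3 : ZES.AliStmt) : GavStmt := by
  intro g τ hτ
  obtain ⟨Λ, hΛ⟩ := h1 g (τ.map Complex.im) hτ.2
  obtain ⟨hu, ⟨ε, hε, hdisc⟩, hspan⟩ := h2 g τ hτ
  have hali := h3 g τ hτ (τ.map Complex.im) rfl
  set Y : Matrix (Fin g) (Fin g) ℝ := τ.map Complex.im with hY
  set β : (Fin g → ℂ) → ℂ := fun x =>
    (Real.pi : ℂ) / 2 * (∑ i, ∑ j, x i * ((Y⁻¹ i j : ℝ) : ℂ) * x j) with hβ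
  set L : AddSubgroup (EuclideanSpace ℂ (Fin g)) :=
    { carrier := {v | InLat τ (Λ.symm v)}
      add_mem' := by
        intro a b ha hb
        obtain ⟨p, q, hpq⟩ := (inlat_iff τ _).1 ha
        obtain ⟨p', q', hpq'⟩ := (inlat_iff τ _).1 hb
        refine (inlat_iff τ _).2 ⟨p + p', q + q', ?_⟩
        rw [map_add, hpq, hpq', pr_add]
      zero_mem' := (inlat_iff τ _).2 ⟨0, 0, by rw [map_zero, pr_zero]⟩
      neg_mem' := by
        intro a ha
        obtain ⟨p, q, hpq⟩ := (inlat_iff τ _).1 ha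
        exact (inlat_iff τ _).2 ⟨-p, -q, by rw [map_neg, hpq, pr_neg]⟩ } with hL
  have hmem : ∀ v, v ∈ L ↔ InLat τ (Λ.symm v) := fun v => Iff.rfl
  have hmem2 : ∀ v, v ∈ L ↔ ∃ p q : Fin g → ℤ, v = Λ (pr τ p q) := by
    intro v
    rw [hmem, inlat_iff]
    constructor
    · rintro ⟨p, q, h⟩
      exact ⟨p, q, by rw [← h]; simp⟩
    · rintro ⟨p, q, h⟩
      exact ⟨p, q, by rw [h]; simp⟩
  have hdβ : Differentiable ℂ β := by
    rw [hβ]
    fun_prop
  have hnorm : ∀ v : EuclideanSpace ℂ (Fin g), (((‖v‖ ^ 2 / 2 : ℝ)) : ℂ) = inner ℂ v v / 2 := by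
    intro v
    rw [inner_self_eq_norm_sq_to_K]
    push_cast
    simp
  have hkey : ∀ (n : ℕ) (p q : Fin g → ℤ) (x : Fin g → ℂ),
      chi τ Λ (Λ (pr τ p q)) ^ n * al (Real.pi * (n : ℝ)) (Λ (pr τ p q)) (Λ x)
        * Complex.exp ((n : ℂ) * β x)
      = Complex.exp (-(Real.pi * Complex.I * (n : ℂ)
        * ∑ i, ∑ j, (q i : ℂ) * τ i j * (q j : ℂ))
      - 2 * Real.pi * Complex.I * (n : ℂ) * ∑ i, (q i : ℂ) * x i)
        * Complex.exp ((n : ℂ) * β (x + pr τ p q)) := by
    intro n p q x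
    have ha := (hali p q).1 x
    rw [chi_pr τ Λ hu, al, hnorm, hΛ, hΛ, ← Complex.exp_nat_mul, ← Complex.exp_add,
      ← Complex.exp_add, ← Complex.exp_add]
    congr 1
    rw [hβ]
    simp only []
    rw [ha]
    push_cast
    ring
  refine ⟨Λ, L, chi τ Λ, β, ?_, hdβ, hmem, ?_, fun x y => hΛ x y, ?_, hy_pair τ hτ⟩
  · refine ⟨?_, ?_, ?_, ?_⟩
    · -- discrete
      refine discreteTopology_of_isOpen_singleton_zero ?_
      set δ : ℝ := ε / (‖(Λ.symm : EuclideanSpace ℂ (Fin g) →L[ℂ] (Fin g → ℂ))‖ + 1) with hδ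
      have hpos : 0 < ‖(Λ.symm : EuclideanSpace ℂ (Fin g) →L[ℂ] (Fin g → ℂ))‖ + 1 := by
        positivity
      have hδ0 : 0 < δ := div_pos hε hpos
      have hset : ({0} : Set L) = {x : L | ‖(x : EuclideanSpace ℂ (Fin g))‖ < δ} := by
        ext x
        constructor
        · intro hx
          rw [Set.mem_singleton_iff] at hx
          rw [hx]
          show ‖((0 : L) : EuclideanSpace ℂ (Fin g))‖ < δ
          simpa using hδ0
        · intro hx
          have hx' : ‖(x : EuclideanSpace ℂ (Fin g))‖ < δ := hx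
          have h4 : ‖Λ.symm (x : EuclideanSpace ℂ (Fin g))‖ < ε := by
            have h5 := (Λ.symm : EuclideanSpace ℂ (Fin g) →L[ℂ] (Fin g → ℂ)).le_opNorm
              (x : EuclideanSpace ℂ (Fin g))
            have h6 : ‖Λ.symm (x : EuclideanSpace ℂ (Fin g))‖ ≤
                ‖(Λ.symm : EuclideanSpace ℂ (Fin g) →L[ℂ] (Fin g → ℂ))‖
                  * ‖(x : EuclideanSpace ℂ (Fin g))‖ := h5
            have h7 : (‖(Λ.symm : EuclideanSpace ℂ (Fin g) →L[ℂ] (Fin g → ℂ))‖ + 1) * δ = ε := by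
              rw [hδ]; field_simp
            nlinarith [norm_nonneg (x : EuclideanSpace ℂ (Fin g)),
              norm_nonneg (Λ.symm : EuclideanSpace ℂ (Fin g) →L[ℂ] (Fin g → ℂ))]
          have h8 := hdisc _ ((hmem _).1 x.2) h4
          have h9 : (x : EuclideanSpace ℂ (Fin g)) = 0 := by
            have := congrArg Λ h8
            simpa using this
          rw [Set.mem_singleton_iff]
          exact Subtype.ext h9
      rw [hset]
      exact isOpen_lt (continuous_norm.comp continuous_subtype_val) continuous_const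
    · -- span
      have himg : (L : Set (EuclideanSpace ℂ (Fin g))) =
          ((Λ.toLinearEquiv.restrictScalars ℝ).toLinearMap) '' {w : Fin g → ℂ | InLat τ w} := by
        ext v
        constructor
        · intro hv
          refine ⟨Λ.symm v, (hmem v).1 hv, ?_⟩
          show Λ (Λ.symm v) = v
          simp
        · rintro ⟨w, hw, rfl⟩
          show InLat τ (Λ.symm (Λ w))
          simpa using hw
      rw [himg, Submodule.span_image, hspan, Submodule.map_top, LinearEquiv.range]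
    · -- square
      intro ω hω
      obtain ⟨p, q, rfl⟩ := (hmem2 ω).1 hω
      rw [chi_pr τ Λ hu]
      exact exp_int _
    · intro ω hω η hη
      obtain ⟨p, q, rfl⟩ := (hmem2 ω).1 hω
      obtain ⟨p', q', rfl⟩ := (hmem2 η).1 hη
      rw [← map_add, ← pr_add, chi_pr τ Λ hu, chi_pr τ Λ hu, chi_pr τ Λ hu, hΛ,
        (hali p q).2 p' q', ← Complex.exp_add, ← Complex.exp_add, Complex.exp_eq_exp_iff_exists_int]
      refine ⟨∑ i, q i * p' i, ?_⟩
      simp only [Pi.add_apply]
      push_cast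
      have e1 : (∑ i, ((p i : ℂ) + (p' i : ℂ)) * ((q i : ℂ) + (q' i : ℂ))) =
          ∑ i, (p i : ℂ) * (q i : ℂ) + ∑ i, (p' i : ℂ) * (q' i : ℂ)
            + ∑ i, ((q' i : ℂ) * (p i : ℂ) - (q i : ℂ) * (p' i : ℂ))
            + 2 * ∑ i, (q i : ℂ) * (p' i : ℂ) := by
        rw [Finset.mul_sum, ← Finset.sum_add_distrib, ← Finset.sum_add_distrib,
          ← Finset.sum_add_distrib]
        refine Finset.sum_congr rfl fun i _ => ?_
        ring
      rw [e1]
      ring
  · intro n F
    constructor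
    · rintro ⟨hF1, hF2⟩
      refine ⟨?_, ?_⟩
      · have hd1 : Differentiable ℂ (fun v : EuclideanSpace ℂ (Fin g) => F (Λ.symm v)) :=
          hF1.comp Λ.symm.differentiable
        have hd2 : Differentiable ℂ (fun v : EuclideanSpace ℂ (Fin g) => β (Λ.symm v)) :=
          hdβ.comp Λ.symm.differentiable
        exact hd1.mul (Complex.differentiable_exp.comp (hd2.const_mul _))
      · intro ω hω v
        obtain ⟨p, q, rfl⟩ := (hmem2 ω).1 hω
        have h4 := hkey n p q (Λ.symm v)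
        have h5 : Λ (Λ.symm v) = v := by simp
        rw [h5] at h4
        show F (Λ.symm (v + Λ (pr τ p q))) * Complex.exp ((n : ℂ) * β (Λ.symm (v + Λ (pr τ p q))))
          = chi τ Λ (Λ (pr τ p q)) ^ n * al (Real.pi * (n : ℝ)) (Λ (pr τ p q)) v
            * (F (Λ.symm v) * Complex.exp ((n : ℂ) * β (Λ.symm v)))
        have h6 : Λ.symm (v + Λ (pr τ p q)) = Λ.symm v + pr τ p q := by
          rw [map_add]; simp
        rw [h6, hF2]
        linear_combination (-(F (Λ.symm v))) * h4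
    · rintro ⟨hG1, hG2⟩
      have hG1' : Differentiable ℂ (fun v : EuclideanSpace ℂ (Fin g) =>
        F (Λ.symm v) * Complex.exp ((n : ℂ) * β (Λ.symm v))) := hG1
      refine ⟨?_, ?_⟩
      · have hd1 : Differentiable ℂ (fun x : Fin g → ℂ =>
            (F (Λ.symm (Λ x)) * Complex.exp ((n : ℂ) * β (Λ.symm (Λ x))))
              * Complex.exp (-((n : ℂ) * β x))) :=
          (hG1'.comp Λ.differentiable).mul (Complex.differentiable_exp.comp (hdβ.const_mul _).neg)
        have hd2 : (fun x : Fin g → ℂ =>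
            (F (Λ.symm (Λ x)) * Complex.exp ((n : ℂ) * β (Λ.symm (Λ x))))
              * Complex.exp (-((n : ℂ) * β x))) = F := by
          funext x
          have h5 : Λ.symm (Λ x) = x := by simp
          rw [h5, mul_assoc, ← Complex.exp_add, add_neg_cancel, Complex.exp_zero, mul_one]
        rw [hd2] at hd1
        exact hd1
      · intro x p q
        have h4 := hkey n p q x
        have h7 := hG2 (Λ (pr τ p q)) ((hmem2 _).2 ⟨p, q, rfl⟩) (Λ x)
        have h8 : F (Λ.symm (Λ x + Λ (pr τ p q)))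
            * Complex.exp ((n : ℂ) * β (Λ.symm (Λ x + Λ (pr τ p q))))
          = chi τ Λ (Λ (pr τ p q)) ^ n * al (Real.pi * (n : ℝ)) (Λ (pr τ p q)) (Λ x)
            * (F (Λ.symm (Λ x)) * Complex.exp ((n : ℂ) * β (Λ.symm (Λ x)))) := h7
        have h6 : Λ.symm (Λ x + Λ (pr τ p q)) = x + pr τ p q := by
          rw [map_add]; simp
        have h5 : Λ.symm (Λ x) = x := by simp
        rw [h6, h5] at h8
        have hne : Complex.exp ((n : ℂ) * β (x + pr τ p q)) ≠ 0 := Complex.exp_ne_zero _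
        refine mul_right_cancel₀ hne ?_
        linear_combination h8 + F x * h4
  · intro n x y hxy
    have hn1 : ‖Λ x‖ ^ 2 = (HY τ x x).re := by
      have h9 : inner ℂ (Λ x) (Λ x) = HY τ x x := hΛ x x
      have h10 := hnorm (Λ x)
      rw [h9] at h10
      have h11 : (‖Λ x‖ ^ 2 / 2 : ℝ) = (HY τ x x / 2).re := by
        rw [← h10, Complex.ofReal_re]
      rw [show (HY τ x x / 2) = HY τ x x * (((1 / 2 : ℝ)) : ℂ) by push_cast; ring,
        Complex.re_mul_ofReal] at h11
      linarith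
    have hβ2 : β x = ((Real.pi / 2 : ℝ) : ℂ) * ∑ i, ∑ j, x i * ((Y⁻¹ i j : ℝ) : ℂ) * x j := by
      rw [hβ]
      push_cast
      rfl
    rw [Complex.norm_exp]
    congr 1
    rw [hβ2, hn1, show (n : ℂ) * (((Real.pi / 2 : ℝ) : ℂ)
        * ∑ i, ∑ j, x i * ((Y⁻¹ i j : ℝ) : ℂ) * x j)
      = (((n : ℝ) * (Real.pi / 2) : ℝ) : ℂ) * ∑ i, ∑ j, x i * ((Y⁻¹ i j : ℝ) : ℂ) * x j by
        push_cast; ring, Complex.re_ofReal_mul, hy_re, bl_re]
    have hb : (fun i => (x i).im) = Yv τ y := funext hxy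
    rw [hb, rb_Yv τ hτ]
    have hq : (∑ i, Yv τ y i * y i) = Yq τ y := by
      unfold Yq Yv
      refine Finset.sum_congr rfl fun i _ => ?_
      rw [Finset.sum_mul]
      refine Finset.sum_congr rfl fun j _ => ?_
      ring
    rw [hq]
    ring

end Pool.Agent.ARC.H17
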